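import Mathlib

/-!
# Clique-width, domatic number, DOM-bounded classes (MP_21a028_co)
-/

set_option autoImplicit false

namespace Pool.Agent.Q176.DM

/-- `X` is a dominating set of `G`. -/
def Dominating {V : Type} (G : SimpleGraph V) (X : Set V) : Prop :=
  ∀ v, ∃ u ∈ X, u = v ∨ G.Adj u v

/-- The vertex set of `G` has a partition into `k` dominating sets. -/
def HasDomaticPartition {V : Type} (G : SimpleGraph V) (k : ℕ) : Prop :=
  ∃ c : V → Fin k, ∀ i, Dominating G {v | c v = i}

/-- The domatic number. -/
noncomputable def domaticNumber {V : Type} (G : SimpleGraph V) : ℕ :=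
  sSup {k | HasDomaticPartition G k}

/-- A graph whose vertices carry one of `t` labels. -/
structure LGraph (t : ℕ) where
  V : Type
  [fin : Fintype V]
  G : SimpleGraph V
  lab : V → Fin t

attribute [instance] LGraph.fin

namespace LGraph

variable {t : ℕ}

/-- One vertex with label `i`. -/
def single (i : Fin t) : LGraph t where
  V := Unit
  G := ⊥
  lab := fun _ => i

/-- Disjoint union. -/
def union (A B : LGraph t) : LGraph t where
  V := A.V ⊕ B.V
  G := A.G ⊕g B.G
  lab := Sum.elim A.lab B.lab

/-- Every vertex of label `i` gets label `j`. -/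
def relabel (i j : Fin t) (A : LGraph t) : LGraph t where
  V := A.V
  G := A.G
  lab := fun v => if A.lab v = i then j else A.lab v

/-- Every vertex of label `i` is joined to every vertex of label `j` (`i ≠ j`). -/
def join (i j : Fin t) (h : i ≠ j) (A : LGraph t) : LGraph t where
  V := A.V
  G :=
    { Adj := fun u v => A.G.Adj u v ∨ (A.lab u = i ∧ A.lab v = j) ∨ (A.lab u = j ∧ A.lab v = i)
      symm := ⟨fun u v huv => by
        rcases huv with h | h | h
        · exact Or.inl h.symm
        · exact Or.inr (Or.inr ⟨h.2, h.1⟩)
        · exact Or.inr (Or.inl ⟨h.2, h.1⟩)⟩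
      loopless := ⟨fun u hu => by
        rcases hu with h1 | ⟨h1, h2⟩ | ⟨h1, h2⟩
        · exact A.G.loopless.irrefl u h1
        · exact h (h1.symm.trans h2)
        · exact h (h2.symm.trans h1)⟩ }
  lab := A.lab

end LGraph

/-- The labelled graphs that can be built with the labels `0, …, t - 1` by the four operations. -/
inductive Built (t : ℕ) : LGraph t → Prop
  | single (i : Fin t) : Built t (LGraph.single i)
  | union (A B : LGraph t) : Built t A → Built t B → Built t (LGraph.union A B)
  | relabel (i j : Fin t) (A : LGraph t) : Built t A → Built t (LGraph.relabel i j A)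
  | join (i j : Fin t) (h : i ≠ j) (A : LGraph t) : Built t A → Built t (LGraph.join i j h A)

/-- `G` has clique-width at most `t`. -/
def CliqueWidthLE (t : ℕ) {V : Type} (G : SimpleGraph V) : Prop :=
  ∃ A : LGraph t, Built t A ∧ Nonempty (A.G ≃g G)

/-- The class of graphs of clique-width at most `t` is DOM-bounded: for every `c` there is `d` such
that every (finite, nonempty) graph of clique-width at most `t` and minimum degree at least `d` has
domatic number greater than `c`. -/
def DOMBounded (t : ℕ) : Prop :=
  ∀ c : ℕ, ∃ d : ℕ, ∀ (V : Type) [Fintype V] [Nonempty V] (G : SimpleGraph V),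
    CliqueWidthLE t G → (∀ v, d ≤ (G.neighborSet v).ncard) → c < domaticNumber G

end Pool.Agent.Q176.DM
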