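import Pool.Agent.Q176.DM.Defs

/-!
# Graphs of clique-width at most four, of large minimum degree and of domatic number at most three
-/

set_option autoImplicit false

namespace Pool.Agent.Q176.DM

open LGraph

variable {s : ℕ}

abbrev l0 : Fin (s + 4) := ⟨0, by omega⟩
abbrev l1 : Fin (s + 4) := ⟨1, by omega⟩
abbrev l2 : Fin (s + 4) := ⟨2, by omega⟩
abbrev l3 : Fin (s + 4) := ⟨3, by omega⟩

lemma l20 : (l2 : Fin (s + 4)) ≠ l0 := by simp [l2, l0]
lemma l23 : (l2 : Fin (s + 4)) ≠ l3 := by simp [l2, l3]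

/-- `n + 1` isolated vertices with label `i`. -/
def leaf (i : Fin (s + 4)) : ℕ → LGraph (s + 4)
  | 0 => single i
  | n + 1 => union (single i) (leaf i n)

lemma leaf_built (i : Fin (s + 4)) : ∀ n, Built (s + 4) (leaf i n)
  | 0 => Built.single i
  | n + 1 => Built.union _ _ (Built.single i) (leaf_built i n)

lemma leaf_lab (i : Fin (s + 4)) : ∀ (n : ℕ) (v : (leaf i n).V), (leaf i n).lab v = i
  | 0, _ => rfl
  | _ + 1, Sum.inl _ => rfl
  | n + 1, Sum.inr v => leaf_lab i n v

lemma leaf_adj (i : Fin (s + 4)) : ∀ (n : ℕ) (u v : (leaf i n).V), ¬ (leaf i n).G.Adj u v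
  | 0, _, _ => fun h => h
  | _ + 1, Sum.inl _, Sum.inl _ => fun h => h
  | _ + 1, Sum.inl _, Sum.inr _ => fun h => by simp [leaf, union] at h
  | _ + 1, Sum.inr _, Sum.inl _ => fun h => by simp [leaf, union] at h
  | n + 1, Sum.inr u, Sum.inr v => fun h => leaf_adj i n u v h

lemma leaf_card (i : Fin (s + 4)) : ∀ n : ℕ, Nat.card (leaf i n).V = n + 1
  | 0 => by
      show Nat.card Unit = 1
      simp
  | n + 1 => by
      show Nat.card (Unit ⊕ (leaf i n).V) = n + 2
      rw [Nat.card_sum, leaf_card i n]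
      simp
      omega

/-- A new vertex `y` joined to the vertices of label `0` of `A` and to those of label `1` of `B`. -/
def step (A B : LGraph (s + 4)) : LGraph (s + 4) :=
  relabel l3 l1 (relabel l2 l0 (join l2 l3 l23
    (union (join l2 l0 l20 (union (single l2) A)) (relabel l1 l3 B))))

lemma step_built {A B : LGraph (s + 4)} (hA : Built (s + 4) A) (hB : Built (s + 4) B) :
    Built (s + 4) (step A B) :=
  Built.relabel _ _ _ (Built.relabel _ _ _ (Built.join _ _ _ _ (Built.union _ _
    (Built.join _ _ _ _ (Built.union _ _ (Built.single _) hA)) (Built.relabel _ _ _ hB))))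

/-- All labels are `0` or `1`. -/
def Two (A : LGraph (s + 4)) : Prop := ∀ v, A.lab v = l0 ∨ A.lab v = l1

variable {A B : LGraph (s + 4)}

def yy (A B : LGraph (s + 4)) : (step A B).V := Sum.inl (Sum.inl ())
def ina (B : LGraph (s + 4)) (a : A.V) : (step A B).V := Sum.inl (Sum.inr a)
def inb (A : LGraph (s + 4)) (b : B.V) : (step A B).V := Sum.inr b

lemma cases3 {P : (step A B).V → Prop} (h1 : P (yy A B)) (h2 : ∀ a, P (ina B a))
    (h3 : ∀ b, P (inb A b)) : ∀ v, P v := by
  rintro ((⟨⟩ | a) | b)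
  · exact h1
  · exact h2 a
  · exact h3 b

lemma lab_y : (step A B).lab (yy A B) = l0 := by
  simp [step, yy, relabel, join, union, single, l0, l2, l3]

lemma lab_a (hA : Two A) (a : A.V) : (step A B).lab (ina B a) = A.lab a := by
  rcases hA a with h | h <;>
  simp [step, ina, relabel, join, union, single, l0, l1, l2, l3, h]

lemma lab_b (hB : Two B) (b : B.V) : (step A B).lab (inb A b) = B.lab b := by
  rcases hB b with h | h <;>
  simp [step, inb, relabel, join, union, single, l0, l1, l2, l3, h]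

lemma two_step (hA : Two A) (hB : Two B) : Two (step A B) := by
  intro v
  revert v
  apply cases3
  · exact Or.inl lab_y
  · intro a; rw [lab_a hA]; exact hA a
  · intro b; rw [lab_b hB]; exact hB b

lemma adj_ya (hA : Two A) (a : A.V) : (step A B).G.Adj (yy A B) (ina B a) ↔ A.lab a = l0 := by
  rcases hA a with h | h <;>
  simp [step, ina, yy, relabel, join, union, single, l0, l1, l2, l3, h]

lemma adj_yb (hB : Two B) (b : B.V) : (step A B).G.Adj (yy A B) (inb A b) ↔ B.lab b = l1 := by
  rcases hB b with h | h <;>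
  simp [step, inb, yy, relabel, join, union, single, l0, l1, l2, l3, h]

lemma adj_aa (hA : Two A) (a a' : A.V) :
    (step A B).G.Adj (ina B a) (ina B a') ↔ A.G.Adj a a' := by
  rcases hA a with h | h <;> rcases hA a' with h' | h' <;>
  simp [step, ina, relabel, join, union, single, l0, l1, l2, l3, h, h']

lemma adj_bb (hB : Two B) (b b' : B.V) :
    (step A B).G.Adj (inb A b) (inb A b') ↔ B.G.Adj b b' := by
  rcases hB b with h | h <;> rcases hB b' with h' | h' <;>
  simp [step, inb, relabel, join, union, single, l0, l1, l2, l3, h, h']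

lemma adj_ab (hA : Two A) (hB : Two B) (a : A.V) (b : B.V) :
    ¬ (step A B).G.Adj (ina B a) (inb A b) := by
  rcases hA a with h | h <;> rcases hB b with h' | h' <;>
  simp [step, ina, inb, relabel, join, union, single, l0, l1, l2, l3, h, h']

/-- The graphs of the construction. -/
def BB (D : ℕ) : ℕ → ℕ → LGraph (s + 4)
  | 0, _ => leaf l0 D
  | _ + 1, 0 => leaf l1 D
  | r + 1, b + 1 => step (BB D r (b + 1)) (BB D (r + 1) b)
  termination_by r b => r + b

lemma BB_zero (D b : ℕ) : BB D 0 b = (leaf l0 D : LGraph (s + 4)) := by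
  unfold BB; rfl

lemma BB_succ_zero (D r : ℕ) : BB D (r + 1) 0 = (leaf l1 D : LGraph (s + 4)) := by
  unfold BB; rfl

lemma BB_succ (D r b : ℕ) :
    BB D (r + 1) (b + 1) = (step (BB D r (b + 1)) (BB D (r + 1) b) : LGraph (s + 4)) := by
  rw [BB]

/-- Induction over the construction. -/
lemma BB_induction (D : ℕ) {P : ℕ → ℕ → LGraph (s + 4) → Prop}
    (h0 : ∀ b, P 0 b (leaf l0 D)) (h1 : ∀ r, P (r + 1) 0 (leaf l1 D))
    (h2 : ∀ r b A B, P r (b + 1) A → P (r + 1) b B → P (r + 1) (b + 1) (step A B)) :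
    ∀ r b, P r b (BB D r b) := by
  intro r
  induction r with
  | zero => intro b; rw [BB_zero]; exact h0 b
  | succ r ih =>
    intro b
    induction b with
    | zero => rw [BB_succ_zero]; exact h1 r
    | succ b ihb => rw [BB_succ]; exact h2 r b _ _ (ih (b + 1)) ihb

lemma BB_built (D r b : ℕ) : Built (s + 4) (BB D r b) :=
  BB_induction D (P := fun _ _ A => Built (s + 4) A) (fun _ => leaf_built _ _)
    (fun _ => leaf_built _ _) (fun _ _ _ _ hA hB => step_built hA hB) r b

/-- Every colouring has a vertex whose neighbourhood is monochromatic in the prescribed way. -/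
def Mono (A : LGraph (s + 4)) : Prop :=
  ∀ χ : A.V → Prop, ∃ x, (A.lab x = l0 ∧ ∀ u, A.G.Adj x u → χ u) ∨
    (A.lab x = l1 ∧ ∀ u, A.G.Adj x u → ¬ χ u)

lemma l01 : (l0 : Fin (s + 4)) ≠ l1 := by simp [l0, l1]

lemma two_mono (D r b : ℕ) : Two (BB D r b : LGraph (s + 4)) ∧ Mono (BB D r b : LGraph (s + 4)) := by
  refine BB_induction D (P := fun _ _ A => Two A ∧ Mono A) ?_ ?_ ?_ r b
  · intro b
    refine ⟨fun v => Or.inl (leaf_lab _ _ v), fun χ => ?_⟩
    have hne : Nonempty (leaf (l0 : Fin (s + 4)) D).V := by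
      rw [← Nat.card_pos_iff.trans (and_iff_left inferInstance), leaf_card]; omega
    obtain ⟨x⟩ := hne
    exact ⟨x, Or.inl ⟨leaf_lab _ _ x, fun u hu => (leaf_adj _ _ _ _ hu).elim⟩⟩
  · intro r
    refine ⟨fun v => Or.inr (leaf_lab _ _ v), fun χ => ?_⟩
    have hne : Nonempty (leaf (l1 : Fin (s + 4)) D).V := by
      rw [← Nat.card_pos_iff.trans (and_iff_left inferInstance), leaf_card]; omega
    obtain ⟨x⟩ := hne
    exact ⟨x, Or.inr ⟨leaf_lab _ _ x, fun u hu => (leaf_adj _ _ _ _ hu).elim⟩⟩
  · rintro r b A B ⟨hA, mA⟩ ⟨hB, mB⟩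
    refine ⟨two_step hA hB, fun χ => ?_⟩
    by_cases hy : χ (yy A B)
    · obtain ⟨x, hx⟩ := mA (fun a => χ (ina B a))
      refine ⟨ina B x, ?_⟩
      rcases hx with ⟨hl, hx⟩ | ⟨hl, hx⟩
      · left
        refine ⟨by rw [lab_a hA]; exact hl, ?_⟩
        apply cases3
        · exact fun _ => hy
        · intro a ha; exact hx a ((adj_aa hA _ _).1 ha)
        · intro b hb; exact (adj_ab hA hB _ _ hb).elim
      · right
        refine ⟨by rw [lab_a hA]; exact hl, ?_⟩
        apply cases3
        · intro h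
          have := (adj_ya (B := B) hA x).1 h.symm
          exact (l01 (this.symm.trans hl)).elim
        · intro a ha; exact hx a ((adj_aa hA _ _).1 ha)
        · intro b hb; exact (adj_ab hA hB _ _ hb).elim
    · obtain ⟨x, hx⟩ := mB (fun b => χ (inb A b))
      refine ⟨inb A x, ?_⟩
      rcases hx with ⟨hl, hx⟩ | ⟨hl, hx⟩
      · left
        refine ⟨by rw [lab_b hB]; exact hl, ?_⟩
        apply cases3
        · intro h
          have := (adj_yb (A := A) hB x).1 h.symm
          exact (l01 (hl.symm.trans this)).elim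
        · intro a ha; exact (adj_ab hA hB _ _ ha.symm).elim
        · intro b hb; exact hx b ((adj_bb hB _ _).1 hb)
      · right
        refine ⟨by rw [lab_b hB]; exact hl, ?_⟩
        apply cases3
        · exact fun _ => hy
        · intro a ha; exact (adj_ab hA hB _ _ ha.symm).elim
        · intro b hb; exact hx b ((adj_bb hB _ _).1 hb)

lemma ina_inj : Function.Injective (ina B : A.V → (step A B).V) := fun _ _ h =>
  Sum.inr_injective (Sum.inl_injective h)

lemma inb_inj : Function.Injective (inb A : B.V → (step A B).V) := fun _ _ h =>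
  Sum.inr_injective h

/-- The number of neighbours. -/
noncomputable def dg (A : LGraph (s + 4)) (v : A.V) : ℕ := (A.G.neighborSet v).ncard

lemma dg_a (hA : Two A) (a : A.V) : dg A a ≤ dg (step A B) (ina B a) := by
  have hinj : Function.Injective (ina B : A.V → (step A B).V) := ina_inj
  unfold dg
  rw [← Set.ncard_image_of_injective _ hinj]
  apply Set.ncard_le_ncard
  · rintro _ ⟨u, hu, rfl⟩
    exact (adj_aa hA a u).2 hu
  · exact Set.toFinite _

lemma dg_a' (hA : Two A) (a : A.V) (h : A.lab a = l0) :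
    dg A a + 1 ≤ dg (step A B) (ina B a) := by
  have hinj : Function.Injective (ina B : A.V → (step A B).V) := ina_inj
  unfold dg
  rw [← Set.ncard_image_of_injective _ hinj]
  have hy : yy A B ∉ ina B '' A.G.neighborSet a := by
    rintro ⟨u, _, hu⟩
    exact Sum.inr_ne_inl (Sum.inl_injective hu)
  rw [← Set.ncard_insert_of_notMem hy (Set.toFinite _)]
  apply Set.ncard_le_ncard
  · rintro v (rfl | ⟨u, hu, rfl⟩)
    · exact ((adj_ya hA a).2 h).symm
    · exact (adj_aa hA a u).2 hu
  · exact Set.toFinite _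

lemma dg_b (hB : Two B) (b : B.V) : dg B b ≤ dg (step A B) (inb A b) := by
  have hinj : Function.Injective (inb A : B.V → (step A B).V) := inb_inj
  unfold dg
  rw [← Set.ncard_image_of_injective _ hinj]
  apply Set.ncard_le_ncard
  · rintro _ ⟨u, hu, rfl⟩
    exact (adj_bb hB b u).2 hu
  · exact Set.toFinite _

lemma dg_b' (hB : Two B) (b : B.V) (h : B.lab b = l1) :
    dg B b + 1 ≤ dg (step A B) (inb A b) := by
  have hinj : Function.Injective (inb A : B.V → (step A B).V) := inb_inj
  unfold dg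
  rw [← Set.ncard_image_of_injective _ hinj]
  have hy : yy A B ∉ inb A '' B.G.neighborSet b := by
    rintro ⟨u, _, hu⟩
    exact Sum.inr_ne_inl hu
  rw [← Set.ncard_insert_of_notMem hy (Set.toFinite _)]
  apply Set.ncard_le_ncard
  · rintro v (rfl | ⟨u, hu, rfl⟩)
    · exact ((adj_yb hB b).2 h).symm
    · exact (adj_bb hB b u).2 hu
  · exact Set.toFinite _

lemma dg_y (hA : Two A) : {a | A.lab a = l0}.ncard ≤ dg (step A B) (yy A B) := by
  have hinj : Function.Injective (ina B : A.V → (step A B).V) := ina_inj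
  unfold dg
  rw [← Set.ncard_image_of_injective _ hinj]
  apply Set.ncard_le_ncard
  · rintro _ ⟨u, hu, rfl⟩
    exact (adj_ya hA u).2 hu
  · exact Set.toFinite _

/-- Degrees in the construction. -/
lemma degrees (D r b : ℕ) (hr : r ≤ D) (hb : b ≤ D) :
    (r + b = 0 ∨ b ≠ 0 → D + 1 ≤ {v | (BB D r b : LGraph (s + 4)).lab v = l0}.ncard) ∧
    ∀ v, ((BB D r b : LGraph (s + 4)).lab v = l0 → r ≤ dg (BB D r b) v) ∧
      ((BB D r b : LGraph (s + 4)).lab v = l1 → b ≤ dg (BB D r b) v) := by
  have key : ∀ r b, Two (BB D r b : LGraph (s + 4)) ∧ (r ≤ D → b ≤ D →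
    (r + b = 0 ∨ b ≠ 0 → D + 1 ≤ {v | (BB D r b : LGraph (s + 4)).lab v = l0}.ncard) ∧
    ∀ v, ((BB D r b : LGraph (s + 4)).lab v = l0 → r ≤ dg (BB D r b) v) ∧
      ((BB D r b : LGraph (s + 4)).lab v = l1 → b ≤ dg (BB D r b) v)) := by
    refine BB_induction D (P := fun r b A => Two A ∧ (r ≤ D → b ≤ D →
      (r + b = 0 ∨ b ≠ 0 → D + 1 ≤ {v | A.lab v = l0}.ncard) ∧
      ∀ v, (A.lab v = l0 → r ≤ dg A v) ∧ (A.lab v = l1 → b ≤ dg A v))) ?_ ?_ ?_
    · intro b
      refine ⟨fun v => Or.inl (leaf_lab _ _ v), fun _ _ => ⟨fun _ => ?_, fun v => ⟨fun _ => by omega,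
        fun h => ?_⟩⟩⟩
      · have : {v | (leaf (l0 : Fin (s + 4)) D).lab v = l0} = Set.univ := by
          ext v; simp [leaf_lab]
        rw [this, Set.ncard_univ, leaf_card]
      · exact (l01 ((leaf_lab _ _ v).symm.trans h)).elim
    · intro r
      refine ⟨fun v => Or.inr (leaf_lab _ _ v), fun _ _ => ⟨fun h => by omega, fun v => ⟨fun h => ?_,
        fun _ => by omega⟩⟩⟩
      exact (l01 (h.symm.trans (leaf_lab _ _ v))).elim
    · rintro r b A B ⟨hA, mA⟩ ⟨hB, mB⟩
      refine ⟨two_step hA hB, fun h1 h2 => ?_⟩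
      obtain ⟨cA, dA⟩ := mA (by omega) h2
      obtain ⟨cB, dB⟩ := mB h1 (by omega)
      have hcA := cA (Or.inr (by omega))
      refine ⟨fun _ => ?_, ?_⟩
      · have hinj : Function.Injective (ina B : A.V → (step A B).V) := ina_inj
        refine hcA.trans ?_
        rw [← Set.ncard_image_of_injective _ hinj]
        apply Set.ncard_le_ncard
        · rintro _ ⟨u, hu, rfl⟩
          exact (lab_a hA u).trans hu
        · exact Set.toFinite _
      · apply cases3
        · refine ⟨fun _ => ?_, fun h => (l01 (lab_y.symm.trans h)).elim⟩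
          have := dg_y (B := B) hA
          omega
        · intro a
          rw [lab_a hA]
          refine ⟨fun h => ?_, fun h => ?_⟩
          · have := dg_a' (B := B) hA a h
            have := (dA a).1 h
            omega
          · have := dg_a (B := B) hA a
            have := (dA a).2 h
            omega
        · intro a
          rw [lab_b hB]
          refine ⟨fun h => ?_, fun h => ?_⟩
          · have := dg_b (A := A) hB a
            have := (dB a).1 h
            omega
          · have := dg_b' (A := A) hB a h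
            have := (dB a).2 h
            omega
  exact (key r b).2 hr hb

lemma min_degree (D : ℕ) (v : (BB D D D : LGraph (s + 4)).V) :
    D ≤ ((BB D D D : LGraph (s + 4)).G.neighborSet v).ncard := by
  have h := (degrees (s := s) D D D le_rfl le_rfl).2 v
  rcases (two_mono (s := s) D D D).1 v with h1 | h1
  · exact h.1 h1
  · exact h.2 h1

lemma no_four (D k : ℕ) (h : HasDomaticPartition (BB D D D : LGraph (s + 4)).G k) : k ≤ 3 := by
  by_contra hk
  push Not at hk
  obtain ⟨c, hc⟩ := h
  have e : ∀ i j : ℕ, (hi : i < k) → (hj : j < k) → (⟨i, hi⟩ : Fin k) = ⟨j, hj⟩ → i = j :=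
    fun i j hi hj h => by simpa using h
  obtain ⟨x, hx⟩ := (two_mono (s := s) D D D).2 (fun u => (c u).1 < 2)
  have hself : ∀ i (hi : i < k), (∀ u, (BB D D D : LGraph (s + 4)).G.Adj x u → (c u).1 ≠ i) →
      (c x).1 = i := by
    intro i hi hu
    obtain ⟨u, hu1, hu2⟩ := hc ⟨i, hi⟩ x
    have hu1' : (c u).1 = i := by
      have : c u = ⟨i, hi⟩ := hu1
      rw [this]
    rcases hu2 with rfl | hu2
    · exact hu1'
    · exact (hu u hu2.symm hu1').elim
  rcases hx with ⟨_, hx⟩ | ⟨_, hx⟩
  · have h2 := hself 2 (by omega) (fun u hu => by have := hx u hu; omega)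
    have h3 := hself 3 (by omega) (fun u hu => by have := hx u hu; omega)
    omega
  · have h2 := hself 0 (by omega) (fun u hu => by have := hx u hu; omega)
    have h3 := hself 1 (by omega) (fun u hu => by have := hx u hu; omega)
    omega

/-- Graphs of clique-width at most four, minimum degree at least `d`, domatic number at most 3. -/
theorem exists_graph (t : ℕ) (ht : 4 ≤ t) (d : ℕ) :
    ∃ (V : Type) (_ : Fintype V) (_ : Nonempty V) (G : SimpleGraph V), CliqueWidthLE t G ∧
      (∀ v, d ≤ (G.neighborSet v).ncard) ∧ domaticNumber G ≤ 3 := by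
  obtain ⟨s, rfl⟩ : ∃ s, t = s + 4 := ⟨t - 4, by omega⟩
  have hne : Nonempty (BB d d d : LGraph (s + 4)).V := by
    obtain ⟨x, _⟩ := (two_mono (s := s) d d d).2 (fun _ => True)
    exact ⟨x⟩
  refine ⟨(BB d d d : LGraph (s + 4)).V, inferInstance, hne, (BB d d d : LGraph (s + 4)).G,
    ⟨_, BB_built d d d, ⟨SimpleGraph.Iso.refl⟩⟩, min_degree d, ?_⟩
  apply csSup_le'
  intro k hk
  exact no_four d k hk

/-- The class of graphs of clique-width at most `t` is not DOM-bounded for `t ≥ 4`. -/
theorem not_domBounded (t : ℕ) (ht : 4 ≤ t) : ¬ DOMBounded t := by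
  obtain ⟨s, rfl⟩ : ∃ s, t = s + 4 := ⟨t - 4, by omega⟩
  intro h
  obtain ⟨d, hd⟩ := h 3
  have hne : Nonempty (BB d d d : LGraph (s + 4)).V := by
    obtain ⟨x, _⟩ := (two_mono (s := s) d d d).2 (fun _ => True)
    exact ⟨x⟩
  have := hd _ (BB d d d : LGraph (s + 4)).G ⟨_, BB_built d d d, ⟨SimpleGraph.Iso.refl⟩⟩
    (min_degree d)
  have h3 : domaticNumber (BB d d d : LGraph (s + 4)).G ≤ 3 := by
    apply csSup_le'
    intro k hk
    exact no_four d k hk
  omega

end Pool.Agent.Q176.DM
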